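import Mathlib
import Pool.Agent.Helper94.EngelTFAE
import Pool.Agent.Helper94.Tarski.Indic

set_option autoImplicit false

namespace Pool.Agent.Results.MP_744caf_al.NotRightOrderable

/-- For every `n` there is `c` such that for every simple `n`-Engel group `G`: `G` is not right
orderable, and every right-orderable subgroup of `G` is nilpotent of class at most `c`. -/
theorem result :
    ∀ n : ℕ, ∃ c : ℕ, ∀ (G : Type) [Group G], IsSimpleGroup G →
      (∀ x y : G, (fun z : G => z⁻¹ * y⁻¹ * z * y)^[n] x = 1) →
        (¬ ∃ lo : LinearOrder G, ∀ a b d : G, lo.lt a b → lo.lt (a * d) (b * d)) ∧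
        ∀ K : Subgroup G,
          (∃ lo : LinearOrder K, ∀ a b d : K, lo.lt a b → lo.lt (a * d) (b * d)) →
            Subgroup.upperCentralSeries K c = ⊤ := by
  classical
  intro n
  obtain ⟨c, hc⟩ := Pool.Agent.Helper94.EngelTFAE.class_of_ro n
  refine ⟨c, ?_⟩
  intro G _ hS hE
  have conv : ∀ (K : Type) [Group K],
      (∃ lo : LinearOrder K, ∀ a b d : K, lo.lt a b → lo.lt (a * d) (b * d)) →
      ∃ lo : LinearOrder K, ∀ a b d : K, lo.le a b → lo.le (a * d) (b * d) := by
    rintro K _ ⟨lo, hlo⟩
    refine ⟨lo, ?_⟩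
    intro a b d hab
    let _ := lo
    rcases eq_or_lt_of_le hab with h | h
    · rw [h]
    · exact le_of_lt (hlo a b d h)
  constructor
  · intro hro
    have hn := (hc G hE).1 (conv G hro)
    obtain ⟨lo, hlo⟩ := conv G hro
    have htf : ∀ a : G, ∀ m : ℕ, 0 < m → a ^ m = 1 → a = 1 := fun a m hm ha =>
      Pool.Agent.Helper94.BiOrder.tf_of_ro lo hlo a m hm ha
    have hnil : Group.IsNilpotent G := ⟨c, hn⟩
    have hcomm : ∀ a b : G, a * b = b * a := by
      have hsol : Group.IsSolvable G := inferInstance
      have := IsSimpleGroup.comm_iff_isSolvable (G := G)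
      exact this.2 hsol
    obtain ⟨a, ha⟩ := exists_ne (1 : G)
    have hsub : Subgroup.zpowers (a ^ 2) = ⊤ := by
      have hno : (Subgroup.zpowers (a ^ 2)).Normal := by
        constructor
        intro x hx g
        rw [hcomm g x, mul_inv_cancel_right]; exact hx
      rcases hno.eq_bot_or_eq_top with h | h
      · exact absurd (htf a 2 (by norm_num) (Subgroup.zpowers_eq_bot.1 h)) ha
      · exact h
    have : a ∈ Subgroup.zpowers (a ^ 2) := by rw [hsub]; trivial
    obtain ⟨k, hk⟩ := Subgroup.mem_zpowers_iff.1 this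
    have h1 : a ^ (2 * k - 1) = 1 := by
      rw [zpow_sub, zpow_mul, zpow_one]
      have : a ^ (2 : ℤ) = a ^ 2 := by norm_cast
      rw [this, hk, mul_inv_cancel]
    have h2 : a ^ (2 * k - 1).natAbs = 1 := by
      rcases Int.natAbs_eq (2 * k - 1) with h | h
      · rw [h, zpow_natCast] at h1; exact h1
      · rw [h, zpow_neg, zpow_natCast, inv_eq_one] at h1; exact h1
    exact ha (htf a _ (by omega) h2)
  · intro K hK
    have hEK : ∀ x y : K, (fun z : K => z⁻¹ * y⁻¹ * z * y)^[n] x = 1 := by
      intro x y
      apply Subtype.ext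
      have : ∀ n : ℕ, (((fun z : K => z⁻¹ * y⁻¹ * z * y)^[n] x : K) : G) =
          (fun z : G => z⁻¹ * (y : G)⁻¹ * z * (y : G))^[n] (x : G) := by
        intro n
        induction n with
        | zero => rfl
        | succ n ih =>
          rw [Function.iterate_succ_apply', Function.iterate_succ_apply', ← ih]
          rfl
      rw [this]; exact hE x y
    exact (hc K hEK).1 (conv K hK)

end Pool.Agent.Results.MP_744caf_al.NotRightOrderable
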